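import Pool.Agent.H87.EBK.Stmts

namespace Pool.EBK

theorem sm_hig (hS : STA) : HIG := by
  intro a b c hab hc h1 h2
  obtain ⟨h3, h4⟩ := hS a b c hab.1 hab.2.1 hc
  exact ⟨hab, _, h3, by omega, by omega⟩

theorem sm_rca (hH : HIG) : RCA := by
  intro a b z hab hz h1 h2
  refine hH a z b ⟨hab.1, hz.1, hz.2.1⟩ ⟨hab.2.1, hab.2.2, ?_⟩ h1 (h2.trans h1)
  rw [add_comm]; exact hz.2.2

theorem sm_mid (hDBL : DBL) : MID := by
  intro a b c hP hT h1 h2 h3
  obtain ⟨d, hd, hv⟩ := hDBL a b c hP hT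
  refine ⟨d, hd, ?_⟩
  obtain ⟨ha, hb, hab⟩ := hP
  have hc : 0 < c := hT.1
  have hc4 : v (c ^ 4) = 4 * v c := by
    unfold v
    rw [padicValRat.pow]
    norm_num
  have hab2 : v (a ^ 2 * b ^ 2) = 2 * v a + 2 * v b := by
    unfold v
    rw [padicValRat.mul (by positivity) (by positivity), padicValRat.pow, padicValRat.pow]
    norm_num
  have hlt : v (c ^ 4) < v (-(a ^ 2 * b ^ 2)) := by
    have : v (-(a ^ 2 * b ^ 2)) = v (a ^ 2 * b ^ 2) := by
      unfold v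
      exact padicValRat.neg _
    rw [this, hc4, hab2]
    omega
  have hne : c ^ 4 + -(a ^ 2 * b ^ 2) ≠ 0 := by
    intro h0
    have h3 : -(a ^ 2 * b ^ 2) = -(c ^ 4) := by linarith
    rw [h3] at hlt
    unfold v at hlt
    rw [padicValRat.neg] at hlt
    exact lt_irrefl _ hlt
  have h4 : v (c ^ 4 - a ^ 2 * b ^ 2) = 4 * v c := by
    rw [sub_eq_add_neg, ← hc4]
    unfold v at hlt ⊢
    exact padicValRat.add_eq_of_lt hne (by positivity) (neg_ne_zero.mpr (by positivity)) hlt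
  rw [hv, h4, min_eq_left h1.le, min_eq_right h2.le]
  ring

end Pool.EBK
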