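import Pool.Agent.H87.EBK.FIN2
import Pool.Agent.H87.EBK.Small
import Pool.Agent.H14.EBK.HIG
import Pool.Agent.H21.EBK.FER
import Pool.Agent.H22.EBK.RCB
import Pool.Agent.H23.EBK.LOW
import Pool.Agent.H26.EBK.CTR
import Pool.Agent.H27.EBK.SUB
import Pool.Agent.H28.EBK.TRJ
import Pool.Agent.H36.EBK.VNE
import Pool.Agent.H45.EBK.STR
import Pool.Agent.H52.EBK.INT
import Pool.Agent.H54.EBK.DBL
import Pool.Agent.H56.EBK.STA
import Pool.Agent.H62.EBK.VTX
import Pool.Agent.H71.EBK.RCA
import Pool.Agent.H74.EBK.MPT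
import Pool.Agent.H86.EBK.STP
import Pool.Agent.H89.EBK.DEG

/-!
All rows of the board `ebk` together (typed by helpers 14, 19, 21, 22, 23, 26, 27, 28, 36, 38, 40, 45, 52, 54,
56, 62, 71, 74, 86, 89 and 87).
-/

namespace Pool.EBK

theorem all_dbl : DBL := dbl vne fer

theorem all_stp : STP :=
  stp vne (str (low all_dbl)) (rca (hig sta))
    (rcb vne sta (trj (mpt all_dbl fer) (hig sta) (sm_mid all_dbl)))

theorem final2 : FIN2 := fin2 (lab2 deg ctr sub all_stp (vtx all_stp)) int

/-- the case `φ u = e_u` -/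
theorem final1 (V : Type) [Finite V] (G : SimpleGraph V) (hG : ¬ HasK4Minor G) :
    ∃ x : V → ℕ, Function.Injective x ∧ (∀ u, 0 < x u) ∧
      ∀ u v, G.Adj u v → IsSquare (x u ^ 2 + x v ^ 2) := by
  classical
  refine final2 V G hG V G (fun u c => if c = u then 1 else 0) ?_ ?_
  · intro u w h
    have h1 := congrFun h u
    by_contra hne
    simp only [if_true] at h1
    rw [if_neg hne] at h1
    exact one_ne_zero h1
  · intro u w huw
    refine ⟨u, w, huw, ?_, ?_, ?_⟩
    · simp [huw.ne]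
    · simp [huw.ne']
    · intro c hc hc'
      simp [hc, hc']

end Pool.EBK
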