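import Pool.Agent.H87.EBK.Stmts2

namespace Pool.EBK

theorem fin3 (hL : LAB3) (hC : CON) (hI : ITN) : FIN3 := by
  intro W _ H hH V _ G φ hφ hG Y ε hY hε
  classical
  have := Fintype.ofFinite V
  obtain ⟨K, hK⟩ : ∃ K : ℤ, ∀ u v c, |φ u c - φ v c| ≤ K := by
    refine ⟨∑ u, ∑ v, ∑ c, |φ u c - φ v c|, fun u v c => ?_⟩
    have h1 : |φ u c - φ v c| ≤ ∑ c, |φ u c - φ v c| :=
      Finset.single_le_sum (f := fun c => |φ u c - φ v c|) (fun _ _ => abs_nonneg _) (Finset.mem_univ c)
    have h2 : ∑ c, |φ u c - φ v c| ≤ ∑ v, ∑ c, |φ u c - φ v c| :=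
      Finset.single_le_sum (f := fun v => ∑ c, |φ u c - φ v c|)
        (fun _ _ => Finset.sum_nonneg fun _ _ => abs_nonneg _) (Finset.mem_univ v)
    have h3 : ∑ v, ∑ c, |φ u c - φ v c| ≤ ∑ u, ∑ v, ∑ c, |φ u c - φ v c| :=
      Finset.single_le_sum (f := fun u => ∑ v, ∑ c, |φ u c - φ v c|)
        (fun _ _ => Finset.sum_nonneg fun _ _ => Finset.sum_nonneg fun _ _ => abs_nonneg _)
        (Finset.mem_univ u)
    exact h1.trans (h2.trans h3)
  obtain ⟨δ, hδ, hδ'⟩ := hC W V φ Y ε hY hε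
  have hq : ∀ a, ∃ y1 y2 : ℚ, 0 < y1 ∧ y1 < y2 ∧ Y a - δ < y1 ∧ (y2 : ℝ) < Y a + δ := by
    intro a
    obtain ⟨y1, h1, h1'⟩ := exists_rat_btwn (show max 0 (Y a - δ) < Y a from max_lt (hY a) (by linarith))
    obtain ⟨y2, h2, h2'⟩ := exists_rat_btwn (show Y a < Y a + δ by linarith)
    refine ⟨y1, y2, ?_, ?_, (le_max_right _ _).trans_lt h1, h2'⟩
    · exact_mod_cast (le_max_left _ _).trans_lt h1
    · exact_mod_cast h1'.trans h2
  choose y1 y2 hy1 hy12 hy3 hy4 using hq
  obtain ⟨l, l0', l1, l2⟩ := hL W H K y1 y2 hH hy1 hy12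
  have l0 : ∀ c, 0 < l c := fun c => (hy1 c).trans (l0' c).1
  let y : V → ℚ := fun u => ∏ c, l c ^ (φ u c)
  have y0 : ∀ u, 0 < y u := fun u => Finset.prod_pos fun c _ => zpow_pos (l0 c) _
  obtain ⟨N, x, hN, hx⟩ := hI V y y0
  have hNq : (0 : ℚ) < (N : ℚ) := by exact_mod_cast hN
  refine ⟨x, N, ?_, ?_, hN, ?_, ?_⟩
  · intro u v huv
    by_contra hne
    have hy : y u = y v := by
      have h2 : (N : ℚ) * y u = N * y v := by rw [← hx, ← hx, huv]
      exact mul_left_cancel₀ hNq.ne' h2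
    refine l1 (fun c => φ u c - φ v c) (fun c => hK u v c) ?_ ?_
    · intro h0
      apply hne
      apply hφ
      funext c
      have := congrFun h0 c
      simp only [Pi.zero_apply] at this
      omega
    · have h3 : ∏ c, l c ^ (φ u c - φ v c) = y u / y v := by
        rw [← Finset.prod_div_distrib]
        exact Finset.prod_congr rfl fun c _ => zpow_sub₀ (l0 c).ne' _ _
      rw [h3, hy]
      exact div_self (y0 v).ne'
  · intro u
    have : (0 : ℚ) < (x u : ℚ) := by
      rw [hx]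
      exact mul_pos hNq (y0 u)
    exact_mod_cast this
  · intro u
    have h1 : ((x u : ℝ)) / N = ∏ c, (l c : ℝ) ^ (φ u c) := by
      have h2 : ((x u : ℚ)) / N = y u := by
        rw [hx]
        field_simp
      have h3 : (((x u : ℚ)) / N : ℚ) = ((x u : ℚ)) / N := rfl
      have h4 : ((((x u : ℚ)) / N : ℚ) : ℝ) = ((y u : ℚ) : ℝ) := by rw [h2]
      push_cast at h4
      rw [h4]
      simp only [y]
      push_cast
      rfl
    rw [h1]
    refine hδ' (fun a => (l a : ℝ)) (fun a => ?_) u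
    have e1 : ((y1 a : ℚ) : ℝ) < (l a : ℝ) := by exact_mod_cast (l0' a).1
    have e2 : (l a : ℝ) < ((y2 a : ℚ) : ℝ) := by exact_mod_cast (l0' a).2
    have e3 := hy3 a
    have e4 := hy4 a
    rw [abs_lt]
    constructor <;> linarith
  · intro u v huv
    obtain ⟨a, b, hab, ha, hb, hc⟩ := hG u v huv
    rw [← Rat.isSquare_natCast_iff]
    obtain ⟨⟨la, lb, s, hs⟩, -⟩ := l2 a b hab
    have hne : a ≠ b := hab.ne
    have key : y u * l b = y v * l a := by
      have e1 : ∀ w, y w = l a ^ (φ w a) * (l b ^ (φ w b) *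
          ∏ c ∈ (Finset.univ.erase a).erase b, l c ^ (φ w c)) := by
        intro w
        have h1 := Finset.mul_prod_erase Finset.univ (fun c => l c ^ (φ w c)) (Finset.mem_univ a)
        have h2 := Finset.mul_prod_erase (Finset.univ.erase a) (fun c => l c ^ (φ w c))
          (Finset.mem_erase.mpr ⟨hne.symm, Finset.mem_univ b⟩)
        rw [h2, h1]
      have e2 : ∏ c ∈ (Finset.univ.erase a).erase b, l c ^ (φ u c) =
          ∏ c ∈ (Finset.univ.erase a).erase b, l c ^ (φ v c) := by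
        refine Finset.prod_congr rfl fun c hc' => ?_
        rw [Finset.mem_erase, Finset.mem_erase] at hc'
        rw [hc c hc'.2.1 hc'.1]
      rw [e1 u, e1 v, e2, ha, hb, zpow_add₀ la.ne', zpow_sub₀ lb.ne', zpow_one, zpow_one]
      have := lb.ne'
      field_simp
    have key2 : y u = y v / l b * l a := by
      have := lb.ne'
      field_simp
      linarith
    refine ⟨N * (y v / l b * s), ?_⟩
    have h5 : y v = y v / l b * l b := by
      have := lb.ne'
      field_simp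
    push_cast
    rw [hx, hx]
    calc ((N : ℚ) * y u) ^ 2 + ((N : ℚ) * y v) ^ 2 = (N : ℚ) ^ 2 * ((y v / l b) ^ 2 * (l a ^ 2 + l b ^ 2)) := by
          rw [key2]
          nth_rewrite 2 [h5]
          ring
      _ = (N * (y v / l b * s)) * (N * (y v / l b * s)) := by rw [hs]; ring

end Pool.EBK
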