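import Pool.Agent.H87.EBK.Stmts2

namespace Pool.EBK

/-- the case `φ u = e_u` -/
theorem fin4 (hF : FIN3) (V : Type) [Finite V] (G : SimpleGraph V) (hG : ¬ HasK4Minor G)
    (y : V → ℝ) (ε : ℝ) (hy : ∀ u, 0 < y u) (hε : 0 < ε) :
    ∃ (x : V → ℕ) (N : ℕ), Function.Injective x ∧ (∀ u, 0 < x u) ∧ 0 < N ∧
      (∀ u, |(x u : ℝ) / N - y u| < ε) ∧ ∀ u v, G.Adj u v → IsSquare (x u ^ 2 + x v ^ 2) := by
  classical
  have := Fintype.ofFinite V
  have hi : Function.Injective (fun (u c : V) => if c = u then (1 : ℤ) else 0) := by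
    intro u w h
    have h1 := congrFun h u
    by_contra hne
    simp only [if_true] at h1
    rw [if_neg hne] at h1
    exact one_ne_zero h1
  have ha : ∀ u v, G.Adj u v → ∃ a b, G.Adj a b ∧
      (fun (u c : V) => if c = u then (1 : ℤ) else 0) u a =
        (fun (u c : V) => if c = u then (1 : ℤ) else 0) v a + 1 ∧
      (fun (u c : V) => if c = u then (1 : ℤ) else 0) u b =
        (fun (u c : V) => if c = u then (1 : ℤ) else 0) v b - 1 ∧
      ∀ c, c ≠ a → c ≠ b → (fun (u c : V) => if c = u then (1 : ℤ) else 0) u c =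
        (fun (u c : V) => if c = u then (1 : ℤ) else 0) v c := by
    intro u w huw
    refine ⟨u, w, huw, ?_, ?_, ?_⟩
    · simp [huw.ne]
    · simp [huw.ne']
    · intro c hc hc'
      simp [hc, hc']
  obtain ⟨x, N, h1, h2, h3, h4, h5⟩ := hF V G hG V G _ hi ha y ε hy hε
  refine ⟨x, N, h1, h2, h3, fun u => ?_, h5⟩
  have h6 := h4 u
  have h7 : ∏ a, y a ^ (if a = u then (1 : ℤ) else 0) = y u := by
    rw [Finset.prod_eq_single u]
    · rw [if_pos rfl, zpow_one]
    · intro b _ hb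
      rw [if_neg hb, zpow_zero]
    · intro h
      exact absurd (Finset.mem_univ u) h
  rw [h7] at h6
  exact h6

end Pool.EBK
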