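import Pool.Agent.H87.EBK.All
import Pool.Agent.H87.EBK.FIN3
import Pool.Agent.H87.EBK.FIN4
import Pool.Agent.H14.EBS.LAB3
import Pool.Agent.H17.EBS.ADD
import Pool.Agent.H17.EBS.TVL
import Pool.Agent.H18.EBS.TRI
import Pool.Agent.H21.EBS.BIG
import Pool.Agent.H22.EBS.DSZ
import Pool.Agent.H22.EBS.VTX3
import Pool.Agent.H23.EBS.VAD
import Pool.Agent.H24.EBS.ITN
import Pool.Agent.H31.EBS.DIF
import Pool.Agent.H31.EBS.PIG
import Pool.Agent.H31.EBS.VAH
import Pool.Agent.H46.EBS.STP3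
import Pool.Agent.H53.EBS.STU
import Pool.Agent.H55.EBS.CONT
import Pool.Agent.H62.EBS.STL
import Pool.Agent.H72.EBS.DNA
import Pool.Agent.H85.EBS.DWN
import Pool.Agent.H86.EBS.DNL
import Pool.Agent.H86.EBS.VDI

/-!
All rows of the board `ebs` together (typed by helpers 14, 17, 18, 21, 22, 23, 24, 31, 46, 53, 55, 62, 72, 85, 86
and 87).
-/

namespace Pool.EBK

theorem all_str : STR := str (low all_dbl)

theorem all_big : BIG := big all_str tri dif (vdi tvl) pig dsz

theorem all_dna : DNA := dna tri add (vad tvl) (vah tvl) all_big stu stl dwn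

theorem all_stp3 : STP3 :=
  stp3 vne all_str (rca (hig sta)) (rcb vne sta (trj (mpt all_dbl fer) (hig sta) (sm_mid all_dbl)))
    (dnl sta all_dna)

theorem final3 : FIN3 := fin3 (lab3 deg ctr sub all_stp3 (vtx3 (vtx all_stp) all_stp3)) con itn

end Pool.EBK
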