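import Pool.Agent.H87.EBK.Stmts4

namespace Pool.EBK

/-- the form with the common neighbour `h` inside the graph -/
def FINV : Prop := ∀ (V : Type) [Finite V] (G : SimpleGraph V) (h : V) (B : Set V), h ∉ B →
  (∀ u ∈ B, ∃ p q, ∀ w, G.Adj u w → (w = p ∨ w = q) ∧ w ∉ B ∧ G.Adj h w) →
  ¬ HasK4Minor (G.induce Bᶜ) → ∀ (y : V → ℝ) (ε : ℝ), (∀ u, 0 < y u) → 0 < ε →
  ∃ (x : V → ℕ) (N : ℕ), Function.Injective x ∧ (∀ u, 0 < x u) ∧ 0 < N ∧
    (∀ u, |(x u : ℝ) / N - y u| < ε) ∧ ∀ u w, G.Adj u w → IsSquare (x u ^ 2 + x w ^ 2)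

theorem finv (hLAB : LAB4) (hSEL : SEL) (hGRE : GRE) (hITN : ITN) : FINV := by
  intro V _ G h B hh hdeg hK y ε hy hε
  classical
  have := Fintype.ofFinite V
  have hq : ∀ a, ∃ y1 y2 : ℚ, 0 < y1 ∧ y1 < y2 ∧ y a - ε < y1 ∧ (y2 : ℝ) < y a + ε := by
    intro a
    obtain ⟨y1, h1, h1'⟩ := exists_rat_btwn (show max 0 (y a - ε) < y a from max_lt (hy a) (by linarith))
    obtain ⟨y2, h2, h2'⟩ := exists_rat_btwn (show y a < y a + ε by linarith)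
    refine ⟨y1, y2, ?_, ?_, (le_max_right _ _).trans_lt h1, h2'⟩
    · exact_mod_cast (le_max_left _ _).trans_lt h1
    · exact_mod_cast h1'.trans h2
  choose y1 y2 hy1 hy12 hy3 hy4 using hq
  obtain ⟨l, l1, l2, l3, l4⟩ := hLAB {u : V // u ∈ Bᶜ} (G.induce Bᶜ) ⟨h, hh⟩
    (fun u => y1 u.1) (fun u => y2 u.1) hK (fun u => hy1 u.1) (fun u => hy12 u.1)
  have hlow : ∀ b ∈ B, ∀ (w : V) (hw : w ∈ Bᶜ), G.Adj b w → Low (l ⟨h, hh⟩) (l ⟨w, hw⟩) := by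
    intro b hb w hw hbw
    obtain ⟨p, q, hpq⟩ := hdeg b hb
    have h1 : (G.induce Bᶜ).Adj ⟨h, hh⟩ ⟨w, hw⟩ := (hpq w hbw).2.2
    exact ⟨l3 _ _ h1, l4 _ h1⟩
  obtain ⟨m, m1, m2⟩ := hGRE {u : V // u ∈ B}
    (fun b => {r | y1 b.1 < r ∧ r < y2 b.1 ∧ ∀ (w : V) (hw : w ∈ Bᶜ), G.Adj b.1 w →
      IsSquare (l ⟨w, hw⟩ ^ 2 + r ^ 2)})
    (Finset.univ.image l) (by
      intro b F'
      obtain ⟨p, q, hpq⟩ := hdeg b.1 b.2
      by_cases hN : ∃ p0, G.Adj b.1 p0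
      · obtain ⟨p0, hp0⟩ := hN
        have hp0B : p0 ∈ Bᶜ := (hpq p0 hp0).2.1
        obtain ⟨L, hLdef⟩ : ∃ L : V → ℚ, L = fun w => if hw : w ∈ Bᶜ ∧ G.Adj b.1 w then l ⟨w, hw.1⟩
          else l ⟨p0, hp0B⟩ := ⟨_, rfl⟩
        have hL : ∀ w, Low (l ⟨h, hh⟩) (L w) := by
          intro w
          rw [hLdef]
          by_cases hw : w ∈ Bᶜ ∧ G.Adj b.1 w
          · simp only [dif_pos hw]
            exact hlow b.1 b.2 w hw.1 hw.2
          · simp only [dif_neg hw]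
            exact hlow b.1 b.2 p0 hp0B hp0
        have hLA : ∀ (w : V) (hw : w ∈ Bᶜ), G.Adj b.1 w → L w = l ⟨w, hw⟩ := by
          intro w hw hbw
          rw [hLdef]
          exact dif_pos (⟨hw, hbw⟩ : w ∈ Bᶜ ∧ G.Adj b.1 w)
        obtain ⟨r, r1, r2, r3, r4, r5⟩ := hSEL (l ⟨h, hh⟩) (L p) (L q) (y1 b.1) (y2 b.1) F' (hL p) (hL q)
          (hy1 b.1) (hy12 b.1)
        refine ⟨r, ⟨r2, r3, fun w hw hbw => ?_⟩, r1⟩
        rcases (hpq w hbw).1 with rfl | rfl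
        · rw [hLA w hw hbw] at r4
          exact r4
        · rw [hLA w hw hbw] at r5
          exact r5
      · obtain ⟨r, hr, hr'⟩ := (Set.Ioo_infinite (hy12 b.1)).exists_notMem_finset F'
        exact ⟨r, ⟨hr.1, hr.2, fun w _ hbw => absurd ⟨w, hbw⟩ hN⟩, hr'⟩)
  obtain ⟨M, hM⟩ : ∃ M : V → ℚ, M = fun w => if hw : w ∈ B then m ⟨w, hw⟩ else l ⟨w, hw⟩ := ⟨_, rfl⟩
  have hMB : ∀ (w : V) (hw : w ∈ B), M w = m ⟨w, hw⟩ := by
    intro w hw
    rw [hM]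
    exact dif_pos hw
  have hMA : ∀ (w : V) (hw : w ∉ B), M w = l ⟨w, hw⟩ := by
    intro w hw
    rw [hM]
    exact dif_neg hw
  have hMi : Function.Injective M := by
    intro u w huw
    by_cases hu : u ∈ B <;> by_cases hw : w ∈ B
    · rw [hMB u hu, hMB w hw] at huw
      exact congrArg Subtype.val (m1 huw)
    · exfalso
      rw [hMB u hu, hMA w hw] at huw
      exact (m2 ⟨u, hu⟩).2 (by rw [huw]; exact Finset.mem_image_of_mem _ (Finset.mem_univ _))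
    · exfalso
      rw [hMA u hu, hMB w hw] at huw
      exact (m2 ⟨w, hw⟩).2 (by rw [← huw]; exact Finset.mem_image_of_mem _ (Finset.mem_univ _))
    · rw [hMA u hu, hMA w hw] at huw
      exact congrArg Subtype.val (l1 huw)
  have hMy : ∀ u, y1 u < M u ∧ M u < y2 u := by
    intro u
    by_cases hu : u ∈ B
    · rw [hMB u hu]
      exact ⟨(m2 ⟨u, hu⟩).1.1, (m2 ⟨u, hu⟩).1.2.1⟩
    · rw [hMA u hu]
      exact l2 ⟨u, hu⟩
  have hM0 : ∀ u, 0 < M u := fun u => (hy1 u).trans (hMy u).1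
  have hsq : ∀ u w, G.Adj u w → IsSquare (M u ^ 2 + M w ^ 2) := by
    intro u w huw
    by_cases hu : u ∈ B <;> by_cases hw : w ∈ B
    · obtain ⟨p, q, hpq⟩ := hdeg u hu
      exact absurd hw (hpq w huw).2.1
    · have h1 := (m2 ⟨u, hu⟩).1.2.2 w hw huw
      rw [hMB u hu, hMA w hw, add_comm]
      exact h1
    · have h1 := (m2 ⟨w, hw⟩).1.2.2 u hu huw.symm
      rw [hMA u hu, hMB w hw]
      exact h1
    · rw [hMA u hu, hMA w hw]
      have h1 : (G.induce Bᶜ).Adj ⟨u, hu⟩ ⟨w, hw⟩ := huw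
      exact (l3 _ _ h1).1.2.2
  obtain ⟨N, x, hN, hx⟩ := hITN V M hM0
  have hNq : (0 : ℚ) < (N : ℚ) := by exact_mod_cast hN
  refine ⟨x, N, ?_, ?_, hN, ?_, ?_⟩
  · intro u w huw
    apply hMi
    have h2 : (N : ℚ) * M u = N * M w := by rw [← hx, ← hx, huw]
    exact mul_left_cancel₀ hNq.ne' h2
  · intro u
    have : (0 : ℚ) < (x u : ℚ) := by
      rw [hx]
      exact mul_pos hNq (hM0 u)
    exact_mod_cast this
  · intro u
    have h1 : ((x u : ℝ)) / N = (M u : ℝ) := by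
      have h2 : ((x u : ℚ)) / N = M u := by
        rw [hx]
        field_simp
      have h4 : ((((x u : ℚ)) / N : ℚ) : ℝ) = ((M u : ℚ) : ℝ) := by rw [h2]
      push_cast at h4
      exact h4
    rw [h1]
    have e1 : ((y1 u : ℚ) : ℝ) < (M u : ℝ) := by exact_mod_cast (hMy u).1
    have e2 : (M u : ℝ) < ((y2 u : ℚ) : ℝ) := by exact_mod_cast (hMy u).2
    have e3 := hy3 u
    have e4 := hy4 u
    rw [abs_lt]
    constructor <;> linarith
  · intro u w huw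
    rw [← Rat.isSquare_natCast_iff]
    obtain ⟨s, hs⟩ := hsq u w huw
    refine ⟨N * s, ?_⟩
    push_cast
    rw [hx, hx]
    linear_combination (N : ℚ) ^ 2 * hs

end Pool.EBK
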