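import Pool.Agent.H87.EBK.All2
import Pool.Agent.H87.EBK.FINV
import Pool.Agent.H4.EBT.LOWW
import Pool.Agent.H12.EBT.GRE
import Pool.Agent.H18.EBT.DNAW
import Pool.Agent.H87.EBT.BIGW
import Pool.Agent.H38.EBT.SEL
import Pool.Agent.H40.EBT.HUB
import Pool.Agent.H56.EBT.DNLW
import Pool.Agent.H70.EBT.STRW
import Pool.Agent.H72.EBT.WRT
import Pool.Agent.H38.EBU.LAB4
import Pool.Agent.H89.EBU.DEGR
import Pool.Agent.H56.EBU.STP5
import Pool.Agent.H86.EBU.VTX4

/-!
All rows of the boards `ebt` and `ebu` together (typed by helpers 4, 12, 18, 38, 40, 56, 70, 72,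
86, 89 and 87).
-/

namespace Pool.EBK

theorem all_strw : STRW := strw loww

theorem all_dnlw : DNLW :=
  dnlw sta (dnaw tri add (vad tvl) (vah tvl) (bigw87 all_strw tri dif (vdi tvl) pig dsz) stu stl dwn)

theorem all_stp5 : STP5 :=
  stp5 vne all_str (rca (hig sta)) (rcb vne sta (trj (mpt all_dbl fer) (hig sta) (sm_mid all_dbl)))
    (dnl sta all_dna)

theorem final_v : FINV :=
  finv (lab4 (degr sub) ctr sub all_stp5 (vtx4 (vtx all_stp) all_stp5)) (sel (hub sta) (wrt all_strw all_dnlw))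
    gre itn

end Pool.EBK
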