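import Mathlib

/-!
MP_93721d_nt (Euler bricks), definitions for the board `ebk` (helper87).

A graph is Pythagorean if its vertices can be labelled by distinct positive integers such that
`x_u ^ 2 + x_v ^ 2` is a square for every edge `uv`.  Euler bricks of dimension `n` are such labellings
of the complete graph on `n` vertices.
-/

namespace Pool.EBK

/-- `G` has a `K₄`-minor: four connected, pairwise disjoint vertex sets, any two of them joined by an edge. -/
def HasK4Minor {V : Type} (G : SimpleGraph V) : Prop :=
  ∃ B : Fin 4 → Set V, (∀ i, (G.induce (B i)).Connected) ∧ (∀ i j, i ≠ j → Disjoint (B i) (B j)) ∧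
    ∀ i j, i ≠ j → ∃ u ∈ B i, ∃ w ∈ B j, G.Adj u w

/-- 2-adic valuation of a rational number -/
abbrev v (q : ℚ) : ℤ := padicValRat 2 q

/-- `a, b` are the legs of a rational right triangle -/
def Pair (a b : ℚ) : Prop := 0 < a ∧ 0 < b ∧ IsSquare (a ^ 2 + b ^ 2)

/-- `c` makes right triangles with `a` and with `b` -/
def Third (a b c : ℚ) : Prop := 0 < c ∧ IsSquare (a ^ 2 + c ^ 2) ∧ IsSquare (b ^ 2 + c ^ 2)

/-- a rich pair: a rational right triangle `a, b` with a third edge `c` whose 2-adic valuation is smaller
than those of `a` and `b` -/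
def Rich (a b : ℚ) : Prop := Pair a b ∧ ∃ c, Third a b c ∧ v c < v a ∧ v c < v b

end Pool.EBK
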