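import Pool.Agent.H87.EBK.LAB2

namespace Pool.EBK

/-- finite subgraphs of the lattice graph of `H`: integer vectors on the vertices of `H`, joined if they differ by
`e_a - e_b` with an edge `ab` of `H` -/
def FIN2 : Prop := ∀ (W : Type) [Finite W] (H : SimpleGraph W), ¬ HasK4Minor H →
  ∀ (V : Type) [Finite V] (G : SimpleGraph V) (φ : V → W → ℤ), Function.Injective φ →
  (∀ u v, G.Adj u v → ∃ a b, H.Adj a b ∧ φ u a = φ v a + 1 ∧ φ u b = φ v b - 1 ∧
    ∀ c, c ≠ a → c ≠ b → φ u c = φ v c) →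
  ∃ x : V → ℕ, Function.Injective x ∧ (∀ u, 0 < x u) ∧ ∀ u v, G.Adj u v → IsSquare (x u ^ 2 + x v ^ 2)

theorem fin2 (hL : LAB2) (hI : INT) : FIN2 := by
  intro W _ H hH V _ G φ hφ hG
  classical
  have := Fintype.ofFinite W
  have := Fintype.ofFinite V
  obtain ⟨K, hK⟩ : ∃ K : ℤ, ∀ u v c, |φ u c - φ v c| ≤ K := by
    refine ⟨∑ u, ∑ v, ∑ c, |φ u c - φ v c|, fun u v c => ?_⟩
    have h1 : |φ u c - φ v c| ≤ ∑ c, |φ u c - φ v c| :=
      Finset.single_le_sum (f := fun c => |φ u c - φ v c|) (fun _ _ => abs_nonneg _) (Finset.mem_univ c)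
    have h2 : ∑ c, |φ u c - φ v c| ≤ ∑ v, ∑ c, |φ u c - φ v c| :=
      Finset.single_le_sum (f := fun v => ∑ c, |φ u c - φ v c|)
        (fun _ _ => Finset.sum_nonneg fun _ _ => abs_nonneg _) (Finset.mem_univ v)
    have h3 : ∑ v, ∑ c, |φ u c - φ v c| ≤ ∑ u, ∑ v, ∑ c, |φ u c - φ v c| :=
      Finset.single_le_sum (f := fun u => ∑ v, ∑ c, |φ u c - φ v c|)
        (fun _ _ => Finset.sum_nonneg fun _ _ => Finset.sum_nonneg fun _ _ => abs_nonneg _)
        (Finset.mem_univ u)
    exact h1.trans (h2.trans h3)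
  obtain ⟨l, l0, l1, l2⟩ := hL W H K hH
  let y : V → ℚ := fun u => ∏ c, l c ^ (φ u c)
  have y0 : ∀ u, 0 < y u := fun u => Finset.prod_pos fun c _ => zpow_pos (l0 c) _
  obtain ⟨x, x0, x1, x2⟩ := hI V y y0
  refine ⟨x, ?_, x0, ?_⟩
  · intro u v huv
    by_contra hne
    refine x1 u v ?_ huv
    intro hy
    refine l1 (fun c => φ u c - φ v c) (fun c => hK u v c) ?_ ?_
    · intro h0
      apply hne
      apply hφ
      funext c
      have := congrFun h0 c
      simp only [Pi.zero_apply] at this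
      omega
    · have h3 : ∏ c, l c ^ (φ u c - φ v c) = y u / y v := by
        rw [← Finset.prod_div_distrib]
        exact Finset.prod_congr rfl fun c _ => zpow_sub₀ (l0 c).ne' _ _
      rw [h3, hy]
      exact div_self (y0 v).ne'
  · intro u v huv
    obtain ⟨a, b, hab, ha, hb, hc⟩ := hG u v huv
    apply x2
    obtain ⟨⟨la, lb, s, hs⟩, -⟩ := l2 a b hab
    have hne : a ≠ b := hab.ne
    have key : y u * l b = y v * l a := by
      have e1 : ∀ w, y w = l a ^ (φ w a) * (l b ^ (φ w b) *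
          ∏ c ∈ (Finset.univ.erase a).erase b, l c ^ (φ w c)) := by
        intro w
        have h1 := Finset.mul_prod_erase Finset.univ (fun c => l c ^ (φ w c)) (Finset.mem_univ a)
        have h2 := Finset.mul_prod_erase (Finset.univ.erase a) (fun c => l c ^ (φ w c))
          (Finset.mem_erase.mpr ⟨hne.symm, Finset.mem_univ b⟩)
        rw [h2, h1]
      have e2 : ∏ c ∈ (Finset.univ.erase a).erase b, l c ^ (φ u c) =
          ∏ c ∈ (Finset.univ.erase a).erase b, l c ^ (φ v c) := by
        refine Finset.prod_congr rfl fun c hc' => ?_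
        rw [Finset.mem_erase, Finset.mem_erase] at hc'
        rw [hc c hc'.2.1 hc'.1]
      rw [e1 u, e1 v, e2, ha, hb, zpow_add₀ la.ne', zpow_sub₀ lb.ne', zpow_one, zpow_one]
      have := lb.ne'
      field_simp
    have key2 : y u = y v / l b * l a := by
      have := lb.ne'
      field_simp
      linarith
    refine ⟨y v / l b * s, ?_⟩
    have h5 : y v = y v / l b * l b := by
      have := lb.ne'
      field_simp
    calc y u ^ 2 + y v ^ 2 = (y v / l b) ^ 2 * (l a ^ 2 + l b ^ 2) := by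
          rw [key2]
          nth_rewrite 2 [h5]
          ring
      _ = y v / l b * s * (y v / l b * s) := by rw [hs]; ring

end Pool.EBK
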