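import Pool.Agent.H87.EBK.Stmts3

namespace Pool.EBK

theorem finc (hFOR : FOR) (hLO0 : LO0) (hSEL : SEL) (hGRE : GRE) (hITN : ITN) : FINC := by
  intro V _ G B hB hdeg hA y ε hy hε
  classical
  have := Fintype.ofFinite V
  have hq : ∀ a, ∃ y1 y2 : ℚ, 0 < y1 ∧ y1 < y2 ∧ y a - ε < y1 ∧ (y2 : ℝ) < y a + ε := by
    intro a
    obtain ⟨y1, h1, h1'⟩ := exists_rat_btwn (show max 0 (y a - ε) < y a from max_lt (hy a) (by linarith))
    obtain ⟨y2, h2, h2'⟩ := exists_rat_btwn (show y a < y a + ε by linarith)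
    refine ⟨y1, y2, ?_, ?_, (le_max_right _ _).trans_lt h1, h2'⟩
    · exact_mod_cast (le_max_left _ _).trans_lt h1
    · exact_mod_cast h1'.trans h2
  choose y1 y2 hy1 hy12 hy3 hy4 using hq
  obtain ⟨h, p0, hl0⟩ := hLO0
  obtain ⟨l, l1, l2, l3⟩ := hFOR h p0 hl0 {u : V // u ∈ Bᶜ} (G.induce Bᶜ) hA (fun u => y1 u.1)
    (fun u => y2 u.1) (fun u => hy1 u.1) (fun u => hy12 u.1)
  obtain ⟨L, hLdef⟩ : ∃ L : V → ℚ, L = fun w => if hw : w ∈ Bᶜ then l ⟨w, hw⟩ else p0 := ⟨_, rfl⟩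
  have hLA : ∀ (w : V) (hw : w ∈ Bᶜ), L w = l ⟨w, hw⟩ := by
    intro w hw
    rw [hLdef]
    exact dif_pos hw
  have hL : ∀ w, Low h (L w) := by
    intro w
    by_cases hw : w ∈ Bᶜ
    · rw [hLA w hw]
      exact (l2 ⟨w, hw⟩).2.2
    · rw [hLdef]
      simp only [dif_neg hw]
      exact hl0
  obtain ⟨m, m1, m2⟩ := hGRE {u : V // u ∈ B}
    (fun b => {r | y1 b.1 < r ∧ r < y2 b.1 ∧ ∀ w, G.Adj b.1 w → IsSquare (L w ^ 2 + r ^ 2)})
    (Finset.univ.image l) (by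
      intro b F'
      obtain ⟨p, q, hpq⟩ := hdeg b.1 b.2
      obtain ⟨r, r1, r2, r3, r4, r5⟩ := hSEL h (L p) (L q) (y1 b.1) (y2 b.1) F' (hL p) (hL q)
        (hy1 b.1) (hy12 b.1)
      refine ⟨r, ⟨r2, r3, fun w hw => ?_⟩, r1⟩
      rcases hpq w hw with rfl | rfl
      · exact r4
      · exact r5)
  obtain ⟨M, hM⟩ : ∃ M : V → ℚ, M = fun w => if hw : w ∈ B then m ⟨w, hw⟩ else l ⟨w, hw⟩ := ⟨_, rfl⟩
  have hMB : ∀ (w : V) (hw : w ∈ B), M w = m ⟨w, hw⟩ := by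
    intro w hw
    rw [hM]
    exact dif_pos hw
  have hMA : ∀ (w : V) (hw : w ∉ B), M w = l ⟨w, hw⟩ := by
    intro w hw
    rw [hM]
    exact dif_neg hw
  have hMi : Function.Injective M := by
    intro u w huw
    by_cases hu : u ∈ B <;> by_cases hw : w ∈ B
    · rw [hMB u hu, hMB w hw] at huw
      exact congrArg Subtype.val (m1 huw)
    · exfalso
      rw [hMB u hu, hMA w hw] at huw
      exact (m2 ⟨u, hu⟩).2 (by rw [huw]; exact Finset.mem_image_of_mem _ (Finset.mem_univ _))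
    · exfalso
      rw [hMA u hu, hMB w hw] at huw
      exact (m2 ⟨w, hw⟩).2 (by rw [← huw]; exact Finset.mem_image_of_mem _ (Finset.mem_univ _))
    · rw [hMA u hu, hMA w hw] at huw
      exact congrArg Subtype.val (l1 huw)
  have hMy : ∀ u, y1 u < M u ∧ M u < y2 u := by
    intro u
    by_cases hu : u ∈ B
    · rw [hMB u hu]
      exact ⟨(m2 ⟨u, hu⟩).1.1, (m2 ⟨u, hu⟩).1.2.1⟩
    · rw [hMA u hu]
      exact ⟨(l2 ⟨u, hu⟩).1, (l2 ⟨u, hu⟩).2.1⟩
  have hM0 : ∀ u, 0 < M u := fun u => (hy1 u).trans (hMy u).1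
  have hsq : ∀ u w, G.Adj u w → IsSquare (M u ^ 2 + M w ^ 2) := by
    intro u w huw
    by_cases hu : u ∈ B <;> by_cases hw : w ∈ B
    · exact absurd huw (hB u hu w hw)
    · have h1 := (m2 ⟨u, hu⟩).1.2.2 w huw
      rw [hLA w hw] at h1
      rw [hMB u hu, hMA w hw, add_comm]
      exact h1
    · have h1 := (m2 ⟨w, hw⟩).1.2.2 u huw.symm
      rw [hLA u hu] at h1
      rw [hMA u hu, hMB w hw]
      exact h1
    · rw [hMA u hu, hMA w hw]
      exact l3 ⟨u, hu⟩ ⟨w, hw⟩ huw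
  obtain ⟨N, x, hN, hx⟩ := hITN V M hM0
  have hNq : (0 : ℚ) < (N : ℚ) := by exact_mod_cast hN
  refine ⟨x, N, ?_, ?_, hN, ?_, ?_⟩
  · intro u w huw
    apply hMi
    have h2 : (N : ℚ) * M u = N * M w := by rw [← hx, ← hx, huw]
    exact mul_left_cancel₀ hNq.ne' h2
  · intro u
    have : (0 : ℚ) < (x u : ℚ) := by
      rw [hx]
      exact mul_pos hNq (hM0 u)
    exact_mod_cast this
  · intro u
    have h1 : ((x u : ℝ)) / N = (M u : ℝ) := by
      have h2 : ((x u : ℚ)) / N = M u := by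
        rw [hx]
        field_simp
      have h4 : ((((x u : ℚ)) / N : ℚ) : ℝ) = ((M u : ℚ) : ℝ) := by rw [h2]
      push_cast at h4
      exact h4
    rw [h1]
    have e1 : ((y1 u : ℚ) : ℝ) < (M u : ℝ) := by exact_mod_cast (hMy u).1
    have e2 : (M u : ℝ) < ((y2 u : ℚ) : ℝ) := by exact_mod_cast (hMy u).2
    have e3 := hy3 u
    have e4 := hy4 u
    rw [abs_lt]
    constructor <;> linarith
  · intro u w huw
    rw [← Rat.isSquare_natCast_iff]
    obtain ⟨s, hs⟩ := hsq u w huw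
    refine ⟨N * s, ?_⟩
    push_cast
    rw [hx, hx]
    linear_combination (N : ℚ) ^ 2 * hs

end Pool.EBK
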