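import Pool.Agent.H87.EBK.Defs

/-! MP_93721d_nt: the graph obtained from `G` by identifying all vertices of `B` with one vertex. -/

namespace Pool.EBK

/-- the graph obtained from `G` by identifying all vertices of `B` with one new vertex `none`: two vertices outside
`B` are adjacent as in `G`, and `none` is adjacent to the vertices outside `B` which have a neighbour in `B` (the
vertices `some u` with `u ∈ B` are left over, without edges; `fromRel` makes the relation symmetric) -/
def identify {V : Type} (G : SimpleGraph V) (B : Set V) : SimpleGraph (Option V) :=
  SimpleGraph.fromRel fun a b =>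
    ∃ u w, G.Adj u w ∧ u ∉ B ∧ a = some u ∧ ((w ∉ B ∧ b = some w) ∨ (w ∈ B ∧ b = none))

end Pool.EBK
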