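import Pool.Agent.H87.EBK.Defs

/-!
Board `ebk` (helper87), MP_93721d_nt, third hand-in.

THEOREM.  Every finite graph without a `K₄`-minor (more generally every subgraph of a Cartesian product of
finitely many such graphs) has a labelling of its vertices by pairwise distinct positive integers with
`x_u ^ 2 + x_v ^ 2` a perfect square for every edge `uv`.  (`K₄` itself is the open 4-dimensional case of Q1.)

Every row is a Prop `XXX`; the file of the row proves `theorem xxx : XXX`, or, if the row has needs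
`A, B`, `theorem xxx (hA : A) (hB : B) : XXX` (needs are hypotheses, so all rows can be started now).
-/

namespace Pool.EBK

/-! ## 2-adic rows.  `v = padicValRat 2`. -/

/-- `a² + b²` a square (`a, b > 0`) implies that the 2-adic valuations of the legs differ by at least 2.
PROOF. Symmetric, so assume `v a ≤ v b`.  `r = b / a`, `1 + r² = s²`.
If `v r = 0`: numerator `p` and denominator `q` of `r` are odd, and `p² + q²` is the square of a rational,
hence of an integer: impossible mod 4.  If `v r > 0`: `p` even, `q` odd, `p² + q² = t²` in the integers, `t` odd,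
so `8 ∣ t² - q² = p²`, so `4 ∣ p`, so `v r ≥ 2`. -/
def VNE : Prop := ∀ a b : ℚ, Pair a b → v a + 2 ≤ v b ∨ v b + 2 ≤ v a

/-- PROOF. `r = a / b = (c / b)²` and `1 + r² ` is a square, so `x⁴ + y⁴ = z²` with `x = ` numerator of `c / b`,
`y = ` its denominator: Mathlib `not_fermat_42`. -/
def FER : Prop := ∀ a b c : ℚ, Pair a b → c ^ 2 ≠ a * b

/-- PROOF. `a² + (ab/c)² = (a/c)² (c² + b²)`, `b² + (ab/c)² = (b/c)² (c² + a²)`; `padicValRat.mul`, `.div`. -/
def STA : Prop := ∀ a b c : ℚ, 0 < a → 0 < b → Third a b c →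
  Third a b (a * b / c) ∧ v (a * b / c) = v a + v b - v c

/-- doubling.  PROOF. `u² = a² + c²`, `w² = b² + c²` with `u, w > 0`.  `d = |c⁴ - a²b²| / (2 c u w)`.
Then `d² + a² = ((c⁴ + 2 c² a² + a² b²) / (2 c u w))²` and `d² + b² = ((c⁴ + 2 c² b² + a² b²) / (2 c u w))²`
(field_simp, ring, with `u² = a² + c²`, `w² = b² + c²`).  `d ≠ 0` by `FER` (`c² ≠ ab`, and `c² ≠ -ab`).
`v d = v (c⁴ - a²b²) - 1 - v c - v u - v w`; `Pair a c` so `v a ≠ v c` (`VNE`), hence
`2 * v u = v (a² + c²) = 2 * min (v a) (v c)` (`padicValRat.add_eq_min`), the same for `w`. -/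
def DBL : Prop := ∀ a b c : ℚ, Pair a b → Third a b c →
  ∃ d, Third a b d ∧ v d = v (c ^ 4 - a ^ 2 * b ^ 2) - 1 - v c - min (v a) (v c) - min (v b) (v c)

/-- PROOF. `DBL`; `v (c⁴) = 4 v c < 2 v a + 2 v b = v (a²b²)`, so `v (c⁴ - a²b²) = 4 v c`
(`padicValRat.add_eq_of_lt` or `add_eq_min`, `padicValRat.neg`). -/
def LOW : Prop := ∀ a b c : ℚ, Pair a b → Third a b c → v c < v a → v c < v b →
  ∃ d, Third a b d ∧ v d = v c - 1

/-- PROOF. induction on `n` with `LOW`. -/
def STR : Prop := ∀ a b : ℚ, Rich a b → ∃ k : ℤ, k < v a ∧ k < v b ∧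
  ∀ n : ℕ, ∃ d, Third a b d ∧ v d = k - n

/-- PROOF. `STA`: `v (ab/c) = v a + v b - v c < v a` and `< v b`. -/
def HIG : Prop := ∀ a b c : ℚ, Pair a b → Third a b c → v a < v c → v b < v c → Rich a b

/-- middle position, exact midpoint.  PROOF. `DBL`: put `c⁴ - a²b² = 2^(4 v c) (m - n)` where
`m, n` are squares of rationals of valuation 0 (`c² / 2^(2 v c)` and `ab / 2^(2 v c)`), so `v (m - n) ≥ 3`
(squares of odd numbers are 1 mod 8; write the two units as quotients of odd integers), `c⁴ ≠ a²b²` by `FER`; so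
`v d ≥ 4 v c + 3 - 1 - v c - v a - v c = 2 v c + 2 - v a = v b + 2`. -/
def MPT : Prop := ∀ a b c : ℚ, Pair a b → Third a b c → v a < v c → v c < v b → 2 * v c = v a + v b →
  ∃ d, Third a b d ∧ v b < v d

/-- middle position, nearer to `a`.  PROOF. `DBL`, `v (c⁴) = 4 v c < 2 v a + 2 v b`. -/
def MID : Prop := ∀ a b c : ℚ, Pair a b → Third a b c → v a < v c → v c < v b → 2 * v c < v a + v b →
  ∃ d, Third a b d ∧ v d = 2 * v c - 1 - v a

/-- the trajectory which ends in the midpoint.  PROOF. for fixed `j` by induction on `m`, `i = j - m`: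
for every `i ≤ j`, if `v c - v a = 2 ^ i * (β - 1) + 1` then `Rich a b`.  `i = j`: `MPT` gives `d` with
`v d > v b > v a`, then `HIG`.  `i < j`: `2 * (v c - v a) < v b - v a` (since `β ≥ 2`), so `MID` gives `d` with
`v d - v a = 2 (v c - v a) - 1 = 2 ^ (i + 1) * (β - 1) + 1`, between `v a` and `v b`. -/
def TRJ : Prop := ∀ (a b c : ℚ) (β : ℤ) (j : ℕ), Pair a b → Third a b c → 2 ≤ β → v c - v a = β →
  v b - v a = 2 * (2 ^ j * (β - 1) + 1) → Rich a b

/-- PROOF. `Pair a z`, `Third a z b`, `v a < v b`, `v z < v b`: `HIG`. -/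
def RCA : Prop := ∀ a b z : ℚ, Pair a b → Third a b z → v a < v b → v z < v a → Rich a z

/-- PROOF. `β = v b - v a ≥ 2` (`VNE`).  `Pair z b`, `Third z b a` (`add_comm`).  `STA`: `a' = z b / a` is a third
edge of `z, b` with `v a' = v z + v b - v a`, so `v a' - v z = β`, and `v b - v z = 2 (2 ^ j (β - 1) + 1)`.
`TRJ` gives `Rich z b`; symmetry gives `Rich b z`. -/
def RCB : Prop := ∀ (a b z : ℚ) (j : ℕ), Pair a b → Third a b z → v a < v b → v z < v a →
  v b - v z = 2 * (2 ^ j * (v b - v a - 1) + 1) → Rich b z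

/-- MAIN STEP.  PROOF. WLOG `v a < v b` (`VNE`, symmetry of `Pair`, `Third`, `Rich`).  `k` from `STR`.  Let `β = v b - v a ≥ 2`.
`t j = v b - 2 * (2 ^ j * (β - 1) + 1)` tends to `-∞`; take `j` with `t j ≤ k` and `t j < v f` for all `f ∈ F`;
`STR` gives `c` with `v c = t j` (`n = k - t j`), so `c ∉ F`; `v c < v a`; `RCA` and `RCB`. -/
def STP : Prop := ∀ (a b : ℚ) (F : Finset ℚ), Rich a b → ∃ c, c ∉ F ∧ Third a b c ∧ Rich a c ∧ Rich b c

/-- PROOF. `(44, 240)` with third edge `117` is rich (`v = 2, 4, 0`), scale it by `q / 44` (valuations shift by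
`v (q / 44)`, squares by a square), so there is `b` with `Rich q b`; then `STP`. -/
def VTX : Prop := ∀ (q : ℚ) (F : Finset ℚ), 0 < q → ∃ c, c ∉ F ∧ 0 < c ∧ Rich q c

/-! ## graph rows -/

/-- PROOF. Strong induction on `Nat.card V` (or on the number of elements of a vertex set).
Let `x y` be an edge and suppose there is a third vertex; claim: some vertex other than `x, y` has at most two neighbours.
(a) If neither `x` nor `y` has another neighbour, delete both: the rest is nonempty; if it has no edge or exactly two vertices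
every vertex will do, otherwise apply the claim to an edge of the rest (fewer vertices; minors of an induced subgraph are minors of `G`).
(b) Otherwise, say `y` has a neighbour other than `x` (exchange `x, y`).  Take a longest path
`x = p_0, y = p_1, ..., p_k = l` (`k ≥ 2`): all neighbours of `l` are on it.  If `l` has at most 2 neighbours: done.
Otherwise `l` is adjacent to `p_{k-1}`, `p_j`, `p_i` with `i < j ≤ k - 2`.  Let `D` be the vertex set of the component of
`G - {p_0, ..., p_j, l}` which contains `p_{j+1}, ..., p_{k-1}`.  If some vertex of `D` is adjacent to some `p_m`, `m < j`, then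
`{l}, {p_j}, D, {p_0, ..., p_{j-1}}` is a `K₄`-minor.  Otherwise all neighbours of vertices of `D` are in
`D ∪ {p_j, l}`; apply the claim (induction: `x` is not in it) to `G.induce (D ∪ {p_j, l})` and its edge `p_j l`:
a vertex of `D` with at most two neighbours there, and it has no others in `G`. -/
def DEG : Prop := ∀ (V : Type) [Finite V] [Nonempty V] (G : SimpleGraph V), ¬ HasK4Minor G →
  ∃ z : V, ∃ x y : V, ∀ u, G.Adj z u → u = x ∨ u = y

/-- `G - z` with the edge `x y` added, when `z` is adjacent to both.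
PROOF. Given a `K₄`-model `B` in `H`, put `B' i = Subtype.val '' (B i)`, with `z` added if `x ∈ B i`.  `B'` is a `K₄`-model in `G`:
`B' i` is connected (an edge `x y` of `H` inside is replaced by `x z y`; `z` is joined to `x`), and an edge `x y` between
`B i ∋ x` and `B j ∋ y` is replaced by the edge `z y`. -/
def CTR : Prop := ∀ (V : Type) (G : SimpleGraph V) (z x y : V) (H : SimpleGraph {u : V // u ≠ z}),
  G.Adj z x → G.Adj z y → x ≠ y → (∀ u w : {u : V // u ≠ z}, H.Adj u w →
    G.Adj u w ∨ (u.1 = x ∧ w.1 = y) ∨ (u.1 = y ∧ w.1 = x)) → HasK4Minor H → HasK4Minor G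

/-- the same without a new edge (`H` = `G - z`): a minor of an induced subgraph is a minor.
PROOF. images of the branch sets. -/
def SUB : Prop := ∀ (V : Type) (G : SimpleGraph V) (z : V), HasK4Minor (G.induce {u : V | u ≠ z}) → HasK4Minor G

/-- labels with rich edges and ratios outside `F`.
PROOF. Induction on `Nat.card V`.  `V` empty: trivial.  Otherwise `z, x, y` from `DEG`.
If `z` has two different neighbours they are `x` and `y`: `H` on `{u // u ≠ z}` is `G - z` plus the edge `x y`, no `K₄`-minor by `CTR`;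
labels `l` by induction, `Rich (l x) (l y)`; `STP` gives `c` outside the finite set of all `f * l u`, `l u / f`, `l u` (`f ∈ F`)
with `Rich (l x) c`, `Rich (l y) c`: label of `z`.  If `z` has exactly one neighbour `x`: `H = G - z` (`SUB`), `VTX` with `q = l x`.
No neighbour: any positive rational outside a finite set. `Rich` is symmetric. -/
def LAB : Prop := ∀ (V : Type) [Finite V] (G : SimpleGraph V) (F : Finset ℚ), ¬ HasK4Minor G →
  ∃ l : V → ℚ, (∀ u, 0 < l u) ∧ (∀ u w, u ≠ w → l u / l w ∉ F) ∧ ∀ u w, G.Adj u w → Rich (l u) (l w)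

/-- products.  PROOF. Induction on `d` for the statement: for every finite `F` there is `l : V → ℚ`, positive, with
`l u / l w ∉ F` whenever `f i u ≠ f i w` for some `i`, `l u = l w` whenever `f i u = f i w` for all `i`, and
`(l u)² + (l w)²` a square whenever `(H i).Adj (f i u) (f i w)` for one `i` and `f j u = f j w` for all `j ≠ i`.
Step: `l` for the first `d` maps and `F ∪ {1}`, then `LAB` for the last graph with `F' = ` all `f * l u / l w`, `f ∈ F ∪ {1}`, `u w : V`;
the new label is `l u * m (f_d u)`.  At the end `F = {1}`; `V` is finite (it embeds in the product; here assumed). -/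
def PRD : Prop := ∀ (V : Type) [Finite V] (d : ℕ) (W : Fin d → Type) (H : ∀ i, SimpleGraph (W i))
  (f : ∀ i, V → W i), (∀ i, Finite (W i)) → (∀ i, ¬ HasK4Minor (H i)) →
  ∃ l : V → ℚ, (∀ u, 0 < l u) ∧ (∀ u w, (∃ i, f i u ≠ f i w) → l u ≠ l w) ∧
    ∀ u w, (∃ i, (H i).Adj (f i u) (f i w) ∧ ∀ j, j ≠ i → f j u = f j w) → IsSquare (l u ^ 2 + l w ^ 2)

/-- from rationals to integers.  PROOF. `N` = product of the denominators, `x u = N * l u` is a positive integer,
`x_u² + x_w² = N² (l_u² + l_w²)` is the square of a rational, hence of a natural number. -/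
def INT : Prop := ∀ (V : Type) [Finite V] (l : V → ℚ), (∀ u, 0 < l u) →
  ∃ x : V → ℕ, (∀ u, 0 < x u) ∧ (∀ u w, l u ≠ l w → x u ≠ x w) ∧
    ∀ u w, IsSquare (l u ^ 2 + l w ^ 2) → IsSquare (x u ^ 2 + x w ^ 2)

/-- FINAL. -/
def FIN : Prop := ∀ (V : Type) [Finite V] (G : SimpleGraph V) (d : ℕ) (W : Fin d → Type)
  (H : ∀ i, SimpleGraph (W i)) (f : ∀ i, V → W i), (∀ i, Finite (W i)) → (∀ i, ¬ HasK4Minor (H i)) →
  (∀ u w, (∀ i, f i u = f i w) → u = w) →
  (∀ u w, G.Adj u w → ∃ i, (H i).Adj (f i u) (f i w) ∧ ∀ j, j ≠ i → f j u = f j w) →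
  ∃ x : V → ℕ, Function.Injective x ∧ (∀ u, 0 < x u) ∧ ∀ u w, G.Adj u w → IsSquare (x u ^ 2 + x w ^ 2)

end Pool.EBK
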