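import Pool.Agent.H87.EBK.Stmts

/-!
Board `ebs` (helper87), MP_93721d_nt: the dense form of FacePatterns.

THEOREM.  For every finite graph `G` without `K₄`-minor, all positive reals `y_v` and `ε > 0` there are distinct
positive integers `x_v` and `N > 0` with `|x_v / N - y_v| < ε` and `x_u ^ 2 + x_v ^ 2` a square for all edges
(so boxes with these integral faces exist in every shape), and the same for the lattice version.

Every row is a Prop `XXX`; the file of the row proves `theorem xxx : XXX`, or, if the row has needs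
`A, B`, `theorem xxx (hA : A) (hB : B) : XXX` (needs are hypotheses, so all rows can be started now).
`v = padicValRat 2`.  Mathlib: `padicValRat.mul`, `.div`, `.pow`, `.add_eq_of_lt`, `.add_eq_min`, `.neg`.
-/

namespace Pool.EBK

/-- `c` makes right triangles with `a`, `b`; hypotenuses `u`, `w` -/
def Tri (a b c u w : ℚ) : Prop := 0 < c ∧ 0 < u ∧ 0 < w ∧ u ^ 2 = a ^ 2 + c ^ 2 ∧ w ^ 2 = b ^ 2 + c ^ 2

/-- numerator of the sum of two points -/
def NU (a c u w c' u' w' : ℚ) : ℚ := c * c' * u * u' - a ^ 2 * w * w'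

/-- denominator of the sum of two points -/
def MU (c u w c' u' w' : ℚ) : ℚ := c' * w' * u + c * w * u'

/-- numerator of the difference of two points -/
def ND (a c u w c' u' w' : ℚ) : ℚ := c * c' * u * u' + a ^ 2 * w * w'

/-- denominator of the difference of two points -/
def MD (c u w c' u' w' : ℚ) : ℚ := c' * w' * u - c * w * u'

/-- PROOF. square roots (absolute values), and conversely `a ^ 2 + c ^ 2 = u * u`. -/
def TRI : Prop := ∀ a b c : ℚ, 0 < a → 0 < b → (Third a b c ↔ ∃ u w, Tri a b c u w)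

/-- valuations of the hypotenuses.  PROOF. `2 v u = v (u²) = v (a² + c²) = min (2 v a, 2 v c)` if `v a ≠ v c`. -/
def TVL : Prop := ∀ a b c u w : ℚ, 0 < a → 0 < b → Tri a b c u w →
  (v c < v a → v u = v c) ∧ (v a < v c → v u = v a) ∧ (v c < v b → v w = v c) ∧ (v b < v c → v w = v b)

/-- addition.  PROOF. With `N = NU`, `M = MU > 0`:
`N² + a² M² = (u² u'² - a⁴ + a² b²)²` and `N² + b² M² = (u u' w w' - (a² - b²) c c')²`: expand so that only
`u², u'², w², w'²` occur (`have e : lhs = ... := by ring`), rewrite with the hypotheses, `ring`.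
(Both identities are proved in `/team-store/ebs_add.lean`, copy them.)  Divide by `M²`. -/
def ADD : Prop := ∀ a b c u w c' u' w' : ℚ, 0 < a → 0 < b → Tri a b c u w → Tri a b c' u' w' →
  0 < NU a c u w c' u' w' → 0 < MU c u w c' u' w' ∧
    Third a b (NU a c u w c' u' w' / MU c u w c' u' w')

/-- subtraction.  PROOF. the two identities of `ADD` with `-c` for `c`
(`/team-store/ebs_add.lean`; they use only the squares of the hypotheses, so they hold for `-c`). -/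
def DIF : Prop := ∀ a b c u w c' u' w' : ℚ, 0 < a → 0 < b → Tri a b c u w → Tri a b c' u' w' →
  MD c u w c' u' w' ≠ 0 → Third a b (ND a c u w c' u' w' / |MD c u w c' u' w'|)

/-- PROOF. `v u = v w = v c`, `v u' = v w' = v c'` (`TVL`).  `ND`: the terms have valuations `2 v c + 2 v c'` and
`2 v a + v c + v c'`, the first is smaller.  `MD`: the terms have valuations `2 v c' + v c < 2 v c + v c'`. So
`v ND = 2 v c + 2 v c'`, `v MD = 2 v c' + v c`.  (`|x| = x` or `-x`.) -/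
def VDI : Prop := ∀ a b c u w c' u' w' : ℚ, 0 < a → 0 < b → Tri a b c u w → Tri a b c' u' w' →
  v c < v a → v c < v b → v c' < v c →
  MD c u w c' u' w' ≠ 0 ∧ v (ND a c u w c' u' w' / |MD c u w c' u' w'|) = v c

/-- PROOF. `v u = v w = v c`, `v u' = v w' = v c'` (`TVL`).  `v NU = 2 v c + 2 v c'` (the other term has valuation
`2 v a + v c + v c'`), `v MU = 2 v c' + v c` (the other term `2 v c + v c'`). -/
def VAD : Prop := ∀ a b c u w c' u' w' : ℚ, 0 < a → 0 < b → Tri a b c u w → Tri a b c' u' w' →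
  v c < v a → v c < v b → v c' < v c → 0 < NU a c u w c' u' w' →
  v (NU a c u w c' u' w' / MU c u w c' u' w') = v c

/-- PROOF. `v u = v a`, `v w = v b`, `v u' = v w' = v c'` (`TVL`).  `NU`: `v c + 2 v c' + v a` against
`2 v a + v b + v c'`, the first is smaller.  `MU`: `2 v c' + v a` against `v c + v b + v c'`, the first is smaller
(`v c' < v b`, `v a < v c`). -/
def VAH : Prop := ∀ a b c u w c' u' w' : ℚ, 0 < a → 0 < b → Tri a b c u w → Tri a b c' u' w' →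
  v a < v c → v b < v c → v c' < v a → v c' < v b → v c + v c' < v a + v b → 0 < NU a c u w c' u' w' →
  v (NU a c u w c' u' w' / MU c u w c' u' w') = v c

/-- pigeonhole.  PROOF. `n ↦ ⌊g n / ε⌋₊` takes values at most `⌊G / ε⌋₊`: two equal values
(`Finite.exists_ne_map_eq_of_infinite` into `Fin (k+1)`). -/
def PIG : Prop := ∀ (g : ℕ → ℚ) (G ε : ℚ), (∀ n, 0 ≤ g n ∧ g n ≤ G) → 0 < ε → ∃ n m, n < m ∧ |g n - g m| < ε

/-- two close bounded points have a large difference.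
PROOF. `b ≤ w, w'`, `u, u' ≤ a + B`, `MD = u u' (c' w' / u' - c w / u)`, `ND ≥ a² w w'`, so
`ND / |MD| ≥ a² (w / u) (w' / u') / |c' w' / u' - c w / u| > a² (b / (a + B))² (a + B)² B / (a² b²) = B`. -/
def DSZ : Prop := ∀ a b c u w c' u' w' B : ℚ, 0 < a → 0 < b → 0 < B → Tri a b c u w → Tri a b c' u' w' →
  c ≤ B → c' ≤ B → MD c u w c' u' w' ≠ 0 →
  |c * w / u - c' * w' / u'| < a ^ 2 * b ^ 2 / ((a + B) ^ 2 * B) →
  B < ND a c u w c' u' w' / |MD c u w c' u' w'|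

/-- third edges which are large and have small valuation.
PROOF. WLOG `B ≥ 1`.  `STR`: `k`, and for every `n` a third edge `d n` with `v (d n) = k - n₀ - n`, where
`n₀ = (k - r).toNat + 1`, so `v (d n) < r`.  If some `d n > B`: done.  Otherwise (`TRI`) hypotenuses `u n, w n`, and
`g n = d n * w n / u n` is in `[0, B (b + B) / a]` (`w n ≤ b + B`, `u n ≥ a`).  `PIG` with
`ε = a² b² / ((a + B)² B)`: `n < m`.  `VDI` with `c = d n`, `c' = d m`; `DIF`, `DSZ`: the difference. -/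
def BIG : Prop := ∀ (a b B : ℚ) (r : ℤ), Rich a b → ∃ c, Third a b c ∧ B < c ∧ v c < r ∧ v c < v a ∧ v c < v b

/-- size of a step, upper bound.  PROOF.  With `N = NU`, `M = MU`:
`c - N / M = (c c' u (w' - u') + c² w u' + a² w w') / M` and `M ≥ c' w' u`.  The three terms:
`c (w' - u') / w' ≤ C b² / c'` (`(w' - u') (w' + u') = b² - a² ≤ b²`, `w' + u' ≥ c'`, `w' ≥ c' ≥ 1`);
`c² w u' / (c' w' u) ≤ C (C + b) / c'` (`u' ≤ w'`, `c ≤ u`, `w ≤ b + C`);
`a² w w' / (c' w' u) ≤ a (C + b) / c'` (`a ≤ u`). -/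
def STU : Prop := ∀ a b c u w c' u' w' C : ℚ, 0 < a → a ≤ b → Tri a b c u w → Tri a b c' u' w' →
  c ≤ C → 1 ≤ c' →
  c - NU a c u w c' u' w' / MU c u w c' u' w' ≤ (C * b ^ 2 + (C + a) * (C + b)) / c'

/-- size of a step, lower bound.  PROOF. (see `STU`) the first two terms are `≥ 0` as `u' ≤ w'`, and
`M = c' w' u + c w u' ≤ c' w' (a + C) + C (b + C) u'`, `w ≥ b`. -/
def STL : Prop := ∀ a b c u w c' u' w' C : ℚ, 0 < a → a ≤ b → Tri a b c u w → Tri a b c' u' w' →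
  c ≤ C → 1 ≤ c' →
  a ^ 2 * b * w' / (c' * w' * (a + C) + C * (b + C) * u') ≤ c - NU a c u w c' u' w' / MU c u w c' u' w'

/-- descent.  PROOF. induction on `n` for: if `P c`, `y2 ≤ c ≤ c0`, `c < y2 + n δ`, then the conclusion. -/
def DWN : Prop := ∀ (P : ℚ → Prop) (c0 y1 y2 δ : ℚ), P c0 → y1 < y2 → y2 ≤ c0 → 0 < δ →
  (∀ c, P c → y2 ≤ c → c ≤ c0 → ∃ c', P c' ∧ y1 < c' ∧ c' ≤ c - δ) → ∃ c', P c' ∧ y1 < c' ∧ c' < y2

/-- going down with constant valuation `t`.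
PROOF. `C = c0`, `K = C b² + (C + a) (C + b) > 0`.  `BIG` with `B = max 1 (K / (y2 - y1))`,
`r = min t (v a + v b - t)`: `c'` with `K / c' < y2 - y1`; hypotenuses `u', w'` (`TRI`).
`DWN` with `P c = (Third a b c ∧ v c = t)`, `δ = a² b w' / (c' w' (a + C) + C (b + C) u')`: the new point is
`NU / MU` (`ADD`): `STU` gives `NU / MU ≥ c - K / c' > y2 - (y2 - y1) = y1 > 0`, so `NU > 0` (`MU > 0`); `STL`.  Its valuation is
`t` by `VAD` or `VAH`. -/
def DNA : Prop := ∀ (a b c0 y1 y2 : ℚ) (t : ℤ), a ≤ b → Rich a b →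
  ((t < v a ∧ t < v b) ∨ (v a < t ∧ v b < t)) → Third a b c0 → v c0 = t → 0 < y1 → y1 < y2 → y2 ≤ c0 →
  ∃ c, Third a b c ∧ v c = t ∧ y1 < c ∧ c < y2

/-- PROOF. WLOG `a ≤ b`.  If `y1 < c0 < y2`: `c0`.  If `y2 ≤ c0`: `DNA`.  If `c0 ≤ y1`: `STA`: `a b / c0` is a third edge
with valuation `v a + v b - v c0 > v a, v b`; `DNA` for it with `a b / y2 < a b / y1`, then `STA` again. -/
def DNL : Prop := ∀ a b c0 y1 y2 : ℚ, Rich a b → Third a b c0 → v c0 < v a → v c0 < v b → 0 < y1 → y1 < y2 →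
  ∃ c, Third a b c ∧ v c = v c0 ∧ y1 < c ∧ c < y2

/-- PROOF. copy `Pool/Agent/H86/EBK/STP.lean` (rename the helpers): after `c` is found replace it with `DNL` by one in `(y1, y2)`
with the same valuation (`c ∉ F`, `RCA` and `RCB` use only the valuation of `c`). -/
def STP3 : Prop := ∀ (a b y1 y2 : ℚ) (F : Finset ℚ), Rich a b → 0 < y1 → y1 < y2 →
  ∃ c, c ∉ F ∧ y1 < c ∧ c < y2 ∧ Third a b c ∧ Rich a c ∧ Rich b c

/-- PROOF. `VTX` gives `b` with `Rich q b`; `STP3` for `q, b`. -/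
def VTX3 : Prop := ∀ (q y1 y2 : ℚ) (F : Finset ℚ), 0 < q → 0 < y1 → y1 < y2 →
  ∃ c, c ∉ F ∧ y1 < c ∧ c < y2 ∧ Rich q c

/-- labels in given intervals.  PROOF. adapt `Pool/Agent/H87/EBK/LAB2.lean` (rename the lemmas; `lab2_bad` can be
cited from there): same induction, with `STP3`, `VTX3`. -/
def LAB3 : Prop := ∀ (V : Type) [Fintype V] (G : SimpleGraph V) (K : ℤ) (y1 y2 : V → ℚ), ¬ HasK4Minor G →
  (∀ u, 0 < y1 u) → (∀ u, y1 u < y2 u) →
  ∃ l : V → ℚ, (∀ u, y1 u < l u ∧ l u < y2 u) ∧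
    (∀ k : V → ℤ, (∀ u, |k u| ≤ K) → k ≠ 0 → ∏ u, l u ^ (k u) ≠ 1) ∧
    ∀ u w, G.Adj u w → Rich (l u) (l w)

/-- PROOF. `l ↦ ∏ a, l a ^ (φ u a)` is continuous at `y` (`ContinuousAt.zpow₀`, `tendsto_finset_prod`,
`continuousAt_apply`), `Metric.continuousAt_iff`, `dist_pi_lt_iff`; finitely many `u`. -/
def CON : Prop := ∀ (W V : Type) [Fintype W] [Finite V] (φ : V → W → ℤ) (y : W → ℝ) (ε : ℝ), (∀ a, 0 < y a) → 0 < ε →
  ∃ δ : ℝ, 0 < δ ∧ ∀ l : W → ℝ, (∀ a, |l a - y a| < δ) → ∀ u, |∏ a, l a ^ (φ u a) - ∏ a, y a ^ (φ u a)| < ε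

/-- PROOF. the first part of `Pool/Agent/H52/EBK/INT.lean`. -/
def ITN : Prop := ∀ (V : Type) [Finite V] (l : V → ℚ), (∀ u, 0 < l u) →
  ∃ (N : ℕ) (x : V → ℕ), 0 < N ∧ ∀ u, (x u : ℚ) = N * l u

/-- FINAL.  PROOF. `δ` from `CON`, rationals `y1 < y < y2` within `δ` and `y1 > 0`, `LAB3` with `K` = bound for
`|φ u c - φ v c|`; then as in `Pool/Agent/H87/EBK/FIN2.lean`, with `ITN`. -/
def FIN3 : Prop := ∀ (W : Type) [Fintype W] (H : SimpleGraph W), ¬ HasK4Minor H →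
  ∀ (V : Type) [Finite V] (G : SimpleGraph V) (φ : V → W → ℤ), Function.Injective φ →
  (∀ u v, G.Adj u v → ∃ a b, H.Adj a b ∧ φ u a = φ v a + 1 ∧ φ u b = φ v b - 1 ∧
    ∀ c, c ≠ a → c ≠ b → φ u c = φ v c) →
  ∀ (y : W → ℝ) (ε : ℝ), (∀ a, 0 < y a) → 0 < ε →
  ∃ (x : V → ℕ) (N : ℕ), Function.Injective x ∧ (∀ u, 0 < x u) ∧ 0 < N ∧
    (∀ u, |(x u : ℝ) / N - ∏ a, y a ^ (φ u a)| < ε) ∧ ∀ u v, G.Adj u v → IsSquare (x u ^ 2 + x v ^ 2)

end Pool.EBK
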