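import Pool.Agent.H87.EBK.Stmts2

/-!
Board `ebt` (helper87), MP_93721d_nt, fourth hand-in: subdivisions.

THEOREM.  Let `G` be a finite graph with a set `B` of pairwise non-adjacent vertices of degree at most 2 such that
`G - B` is a forest (for example the graph obtained from ANY finite graph, such as `K_n`, by subdividing every edge
once).  For all positive reals `y_v` and `ε > 0` there are distinct positive integers `x_v` and `N > 0` with
`|x_v / N - y_v| < ε` and `x_u ^ 2 + x_v ^ 2` a square for all edges.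

Idea.  Fix one number `h` (not a label).  All labels of `G - B` are third edges `p` at `h` with `v p < v h`.
Two such numbers `p, q` have the common partner `h` with `v h > v p, v q`, so (star) the common partner `pq / h` with
small valuation, so by doubling and adding infinitely many common partners, dense in `(0, ∞)`: labels of `B`.

Every row is a Prop `XXX`; the file of the row proves `theorem xxx : XXX`, or, if the row has needs
`A, B`, `theorem xxx (hA : A) (hB : B) : XXX` (needs are hypotheses, so all rows can be started now).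
`v = padicValRat 2`.
-/

namespace Pool.EBK

/-- two positive rationals (they need not form a right triangle) with a common partner of smaller valuation -/
def WRich (a b : ℚ) : Prop := 0 < a ∧ 0 < b ∧ ∃ c, Third a b c ∧ v c < v a ∧ v c < v b

/-- `p` is below `h` -/
def Low (h p : ℚ) : Prop := Rich h p ∧ v p < v h

/-- PROOF. as `H54/EBK/DBL.lean` and `H23/EBK/LOW.lean` without `Pair a b`: `d = |c⁴ - a²b²| / (2 c u w)`; the pair was
used only for `c⁴ ≠ a² b²`, which here follows from `4 v c < 2 v a + 2 v b`.  Valuations `v u = v w = v c`: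
`TVL` (of `Stmts2.lean`) or directly. -/
def LOWW : Prop := ∀ a b c : ℚ, 0 < a → 0 < b → Third a b c → v c < v a → v c < v b →
  ∃ d, Third a b d ∧ v d = v c - 1

/-- PROOF. as `H45/EBK/STR.lean`. -/
def STRW : Prop := ∀ a b : ℚ, WRich a b → ∃ k : ℤ, k < v a ∧ k < v b ∧
  ∀ n : ℕ, ∃ d, Third a b d ∧ v d = k - n

/-- PROOF. as `H21/EBS/BIG.lean`. -/
def BIGW : Prop := ∀ (a b B : ℚ) (r : ℤ), WRich a b → ∃ c, Third a b c ∧ B < c ∧ v c < r ∧ v c < v a ∧ v c < v b

/-- PROOF. as `H72/EBS/DNA.lean`. -/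
def DNAW : Prop := ∀ (a b c0 y1 y2 : ℚ) (t : ℤ), a ≤ b → WRich a b →
  ((t < v a ∧ t < v b) ∨ (v a < t ∧ v b < t)) → Third a b c0 → v c0 = t → 0 < y1 → y1 < y2 → y2 ≤ c0 →
  ∃ c, Third a b c ∧ v c = t ∧ y1 < c ∧ c < y2

/-- PROOF. as `H86/EBS/DNL.lean`. -/
def DNLW : Prop := ∀ a b c0 y1 y2 : ℚ, WRich a b → Third a b c0 → v c0 < v a → v c0 < v b → 0 < y1 → y1 < y2 →
  ∃ c, Third a b c ∧ v c = v c0 ∧ y1 < c ∧ c < y2

/-- PROOF. `STRW` gives `d` with `v d < v f` for all `f ∈ F` (choice of `n` as in `H86/EBK/STP.lean`), `DNLW` moves it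
into `(y1, y2)` with the same valuation. -/
def WRT : Prop := ∀ (a b y1 y2 : ℚ) (F : Finset ℚ), WRich a b → 0 < y1 → y1 < y2 →
  ∃ c, c ∉ F ∧ y1 < c ∧ c < y2 ∧ Third a b c

/-- PROOF. `STA`: `pq / h` is a common partner with `v p + v q - v h < v p, v q`. -/
def HUB : Prop := ∀ h p q : ℚ, 0 < p → 0 < q → Third p q h → v p < v h → v q < v h → WRich p q

/-- PROOF. `h = 240`, `p = 44`, third edge `117`: valuations `4, 2, 0`
(see the end of `Pool/Agent/H62/EBK/VTX.lean` for such computations). -/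
def LO0 : Prop := ∃ h p : ℚ, Low h p

/-- PROOF. copy of `H46/EBS/STP3.lean` (or `stp_aux` of `H86/EBK/STP.lean`) for `a = p`, `b = h`: the `c` found there has
`v c < v p < v h`. -/
def STP4 : Prop := ∀ (h p y1 y2 : ℚ) (F : Finset ℚ), Low h p → 0 < y1 → y1 < y2 →
  ∃ q, q ∉ F ∧ y1 < q ∧ q < y2 ∧ IsSquare (p ^ 2 + q ^ 2) ∧ Low h q

/-- PROOF. `Third p q h` (from `Low`), `HUB`, `WRT`. -/
def SEL : Prop := ∀ (h p q y1 y2 : ℚ) (F : Finset ℚ), Low h p → Low h q → 0 < y1 → y1 < y2 →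
  ∃ r, r ∉ F ∧ y1 < r ∧ r < y2 ∧ IsSquare (p ^ 2 + r ^ 2) ∧ IsSquare (q ^ 2 + r ^ 2)

/-- a finite forest has a vertex with at most one neighbour.
PROOF. If `V` has one element: it.  Otherwise `⊤` is connected, `Connected.exists_isTree_le_of_le_of_isAcyclic` gives a tree
`T' ≥ T`, `IsTree.exists_vert_degree_one_of_nontrivial` a leaf of it (both in `Mathlib/Combinatorics/SimpleGraph/Acyclic.lean`). -/
def LEAF : Prop := ∀ (V : Type) [Finite V] [Nonempty V] (T : SimpleGraph V), T.IsAcyclic →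
  ∃ z x : V, ∀ u, T.Adj z u → u = x

/-- labels of a forest.  PROOF. Induction on `Fintype.card V`.  `V` empty: trivial.  Otherwise `z, x` from `LEAF`; the graph on
`{u // u ≠ z}` (`T.comap Subtype.val`) is acyclic (`IsAcyclic.comap` or `IsAcyclic.induce`); labels by induction; label of `z`:
`STP4` with `p = l x` (`p = p0` if `x = z`), `F =` all the other labels. -/
def FOR : Prop := ∀ (h p0 : ℚ), Low h p0 → ∀ (V : Type) [Fintype V] (T : SimpleGraph V), T.IsAcyclic →
  ∀ y1 y2 : V → ℚ, (∀ u, 0 < y1 u) → (∀ u, y1 u < y2 u) →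
  ∃ l : V → ℚ, Function.Injective l ∧ (∀ u, y1 u < l u ∧ l u < y2 u ∧ Low h (l u)) ∧
    ∀ u w, T.Adj u w → IsSquare (l u ^ 2 + l w ^ 2)

/-- greedy choice.  PROOF. Induction on `Fintype.card B` (or on a finset of `B`): choose one after the other. -/
def GRE : Prop := ∀ (B : Type) [Finite B] (S : B → Set ℚ) (F : Finset ℚ),
  (∀ b, ∀ F' : Finset ℚ, ∃ r ∈ S b, r ∉ F') → ∃ m : B → ℚ, Function.Injective m ∧ ∀ b, m b ∈ S b ∧ m b ∉ F

/-- FINAL. -/
def FINC : Prop := ∀ (V : Type) [Finite V] (G : SimpleGraph V) (B : Set V),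
  (∀ u ∈ B, ∀ w ∈ B, ¬ G.Adj u w) → (∀ u ∈ B, ∃ p q, ∀ w, G.Adj u w → w = p ∨ w = q) →
  (G.induce Bᶜ).IsAcyclic → ∀ (y : V → ℝ) (ε : ℝ), (∀ u, 0 < y u) → 0 < ε →
  ∃ (x : V → ℕ) (N : ℕ), Function.Injective x ∧ (∀ u, 0 < x u) ∧ 0 < N ∧
    (∀ u, |(x u : ℝ) / N - y u| < ε) ∧ ∀ u w, G.Adj u w → IsSquare (x u ^ 2 + x w ^ 2)

end Pool.EBK
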