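import Pool.Agent.H87.EBK.Stmts3
import Pool.Agent.H87.EBK.Identify

/-!
Board `ebu` (helper87), MP_93721d_nt: the common generalisation of FacePatterns (A) and of the theorem of board `ebt`.

THEOREM.  Let `B` be a set of pairwise non-adjacent vertices of degree at most 2 of a finite graph `G` such that the
graph obtained by identifying all vertices of `B` with one vertex has no `K₄`-minor.  Then `G` has, near all positive
reals, labels with `x_u ^ 2 + x_v ^ 2` a square for all edges.

Needs are hypotheses, in the order given by the table.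
-/

namespace Pool.EBK

/-- PROOF. If `h` has a neighbour `y`: if there is a third vertex, `DEG_key` (in `Pool/Agent/H89/EBK/DEG.lean`, with
`S = Set.univ`) for the edge `h y`, else `z = y`.  If `h` has no neighbour: `DEG_main` of that file for the graph
`G.induce {u | u ≠ h}` (no `K₄`-minor by `SUB`). -/
def DEGR : Prop := ∀ (V : Type) [Finite V] (G : SimpleGraph V) (h : V), ¬ HasK4Minor G → (∃ w, w ≠ h) →
  ∃ z : V, z ≠ h ∧ ∃ x y : V, ∀ u, G.Adj z u → u = x ∨ u = y

/-- PROOF. copy of `H46/EBS/STP3.lean`; the `c` found there has `v c < v a` and `v c < v b`. -/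
def STP5 : Prop := ∀ (a b y1 y2 : ℚ) (F : Finset ℚ), Rich a b → 0 < y1 → y1 < y2 →
  ∃ c, c ∉ F ∧ y1 < c ∧ c < y2 ∧ Rich a c ∧ Rich b c ∧ v c < v a ∧ v c < v b

/-- PROOF. `VTX` gives `b` with `Rich q b`; `STP5` for `q, b`. -/
def VTX4 : Prop := ∀ (q y1 y2 : ℚ) (F : Finset ℚ), 0 < q → 0 < y1 → y1 < y2 →
  ∃ c, c ∉ F ∧ y1 < c ∧ c < y2 ∧ Rich q c ∧ v c < v q

/-- labels with a given first vertex `h`.
PROOF. adapt `H14/EBS/LAB3.lean` (without the products, with `Function.Injective l` instead: choose `c` outside the image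
of the old labels): induction on the number of vertices; if `h` is the only vertex: any number between `y1 h` and `y2 h`.
Otherwise `z ≠ h` with at most two neighbours (`DEGR`), induction for the graph on `{u // u ≠ z}` with the vertex `h`
(plus the edge `x y` if `z` has two neighbours), and `STP5` or `VTX4`, which give `v c < v (l x), v (l y)`; so if
`h` is a neighbour of `z` then `v (l z) < v (l h)`. -/
def LAB4 : Prop := ∀ (V : Type) [Fintype V] (G : SimpleGraph V) (h : V) (y1 y2 : V → ℚ), ¬ HasK4Minor G →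
  (∀ u, 0 < y1 u) → (∀ u, y1 u < y2 u) →
  ∃ l : V → ℚ, Function.Injective l ∧ (∀ u, y1 u < l u ∧ l u < y2 u) ∧
    (∀ u w, G.Adj u w → Rich (l u) (l w)) ∧ ∀ u, G.Adj h u → v (l u) < v (l h)

/-- FINAL. -/
def FINU : Prop := ∀ (V : Type) [Finite V] (G : SimpleGraph V) (B : Set V),
  (∀ u ∈ B, ∀ w ∈ B, ¬ G.Adj u w) → (∀ u ∈ B, ∃ p q, ∀ w, G.Adj u w → w = p ∨ w = q) →
  ¬ HasK4Minor (identify G B) → ∀ (y : V → ℝ) (ε : ℝ), (∀ u, 0 < y u) → 0 < ε →
  ∃ (x : V → ℕ) (N : ℕ), Function.Injective x ∧ (∀ u, 0 < x u) ∧ 0 < N ∧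
    (∀ u, |(x u : ℝ) / N - y u| < ε) ∧ ∀ u w, G.Adj u w → IsSquare (x u ^ 2 + x w ^ 2)

end Pool.EBK
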